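import Pool.Agent.helper51.VF.SpecA

/-! # Row vf:EXP (MP_74cfa5_ag) -/

set_option autoImplicit false

namespace Pool.Agent.VF

open Pool.Agent.PC Pool.Agent.QS

universe u

theorem EXP : EXP_stmt.{u} := by
  intro k K _ _ _ n D y hn hfr hD E x
  have hfin : Module.Finite K (Ω[K⁄k]) := Module.finite_of_finrank_pos (by rw [hfr]; exact hn)
  let v : Fin n → (Ω[K⁄k]) := fun l => KaehlerDifferential.D k K (y l)
  have hval : ∀ (G : Derivation k K K) (l : Fin n), G.liftKaehlerDifferential (v l) = G (y l) :=
    fun G l => Derivation.liftKaehlerDifferential_comp_D G (y l)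
  have hli : LinearIndependent K v := by
    rw [Fintype.linearIndependent_iff]
    intro g hg i
    have h1 := congrArg (D i).liftKaehlerDifferential hg
    rw [map_sum, map_zero] at h1
    have h2 : ∑ j, (D i).liftKaehlerDifferential (g j • v j) = g i := by
      have h3 : ∀ j ∈ Finset.univ, (D i).liftKaehlerDifferential (g j • v j) =
          if i = j then g j else 0 := by
        intro j _
        rw [map_smul, hval, hD, smul_eq_mul]
        split_ifs <;> simp
      rw [Finset.sum_congr rfl h3, Finset.sum_ite_eq]
      simp
    rw [h2] at h1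
    exact h1
  have hcard : Fintype.card (Fin n) = Module.finrank K (Ω[K⁄k]) := by rw [Fintype.card_fin, hfr]
  have : Nonempty (Fin n) := ⟨⟨0, hn⟩⟩
  let b := basisOfLinearIndependentOfCardEqFinrank hli hcard
  have hb : ∀ l, b l = v l := fun l => by
    rw [show (b : Fin n → Ω[K⁄k]) l = _ from congrFun (coe_basisOfLinearIndependentOfCardEqFinrank hli hcard) l]
  have heq : E.liftKaehlerDifferential = ∑ l, E (y l) • (D l).liftKaehlerDifferential := by
    refine b.ext fun i => ?_
    rw [hb, hval, LinearMap.sum_apply]
    have h3 : ∀ l ∈ Finset.univ, (E (y l) • (D l).liftKaehlerDifferential) (v i) =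
        if l = i then E (y l) else 0 := by
      intro l _
      rw [LinearMap.smul_apply, hval, hD, smul_eq_mul]
      split_ifs <;> simp
    rw [Finset.sum_congr rfl h3, Finset.sum_ite_eq']
    simp
  have h1 := LinearMap.congr_fun heq (KaehlerDifferential.D k K x)
  rw [Derivation.liftKaehlerDifferential_comp_D, LinearMap.sum_apply] at h1
  rw [h1]
  refine Finset.sum_congr rfl fun l _ => ?_
  rw [LinearMap.smul_apply, Derivation.liftKaehlerDifferential_comp_D, smul_eq_mul]

end Pool.Agent.VF
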