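import Pool.Agent.helper51.VF.SpecA

/-! # Row vf:IND (MP_74cfa5_ag) -/

set_option autoImplicit false

namespace Pool.Agent.VF

open Pool.Agent.PC Pool.Agent.QS

universe u

theorem IND_sum {K : Type u} [Field K] {n : ℕ} (A : Matrix (Fin n) (Fin n) K) (j : Fin n)
    (s : Finset (Fin n)) (c : Fin n → K) (v : Fin n → Fin n → K) :
    (A.updateCol j (∑ l ∈ s, c l • v l)).det = ∑ l ∈ s, c l * (A.updateCol j (v l)).det := by
  classical
  induction s using Finset.induction_on with
  | empty =>
    rw [Finset.sum_empty, Finset.sum_empty]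
    apply Matrix.det_eq_zero_of_column_eq_zero j
    intro i
    rw [Matrix.updateCol_self]
    rfl
  | insert l s hl ih =>
    rw [Finset.sum_insert hl, Finset.sum_insert hl, Matrix.det_updateCol_add, ih,
      Matrix.det_updateCol_smul]

theorem IND : IND_stmt.{u} := by
  intro K _ n M a t hM l0 l1 h0 h1
  classical
  by_cases hl : l0 = l1
  · subst hl
    rfl
  -- the first matrix is `M.updateCol l0 t`
  have e0 : ∀ l : Fin n, (Matrix.of fun i j => if j = l then t i else M i j) = M.updateCol l t := by
    intro l
    ext i j
    rw [Matrix.of_apply, Matrix.updateCol_apply]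
  rw [e0, e0]
  -- `N` : column `l0` replaced by `t`
  have hcol : ∀ i, a l1 * M i l1 = - ∑ l ∈ Finset.univ.erase l1, a l * M i l := by
    intro i
    have h := hM i
    rw [← Finset.add_sum_erase _ _ (Finset.mem_univ l1)] at h
    have h2 : ∑ l ∈ Finset.univ.erase l1, a l * M i l = ∑ l ∈ Finset.univ.erase l1, M i l * a l :=
      Finset.sum_congr rfl fun l _ => mul_comm _ _
    rw [h2]
    linear_combination h
  -- `a l1 * det (M with l0 := t) = - a l0 * det (M with l0 := t, l1 := M l0)`
  have k1 : a l1 * (M.updateCol l0 t).det =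
      - (a l0 * ((M.updateCol l0 t).updateCol l1 (fun i => M i l0)).det) := by
    have s1 : a l1 * (M.updateCol l0 t).det =
        ((M.updateCol l0 t).updateCol l1 (a l1 • fun i => M i l1)).det := by
      rw [Matrix.det_updateCol_smul]
      congr 2
      ext i j
      by_cases hj : j = l1
      · subst hj
        rw [Matrix.updateCol_self, Matrix.updateCol_ne (Ne.symm hl)]
      · rw [Matrix.updateCol_ne hj]
    have s2 : (a l1 • fun i => M i l1) = ∑ l ∈ Finset.univ.erase l1, (-(a l)) • fun i => M i l := by
      funext i
      rw [Finset.sum_apply]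
      simp only [Pi.smul_apply, smul_eq_mul]
      rw [hcol i, ← Finset.sum_neg_distrib]
      exact Finset.sum_congr rfl fun l _ => by ring
    rw [s1, s2]
    have s3 : ((M.updateCol l0 t).updateCol l1 (∑ l ∈ Finset.univ.erase l1, (-(a l)) • fun i => M i l)).det =
        ∑ l ∈ Finset.univ.erase l1, (-(a l)) * ((M.updateCol l0 t).updateCol l1 (fun i => M i l)).det :=
      IND_sum _ _ _ (fun l => -(a l)) (fun l i => M i l)
    rw [s3, Finset.sum_eq_single l0]
    · ring
    · intro l hl1 hl2
      rw [Finset.mem_erase] at hl1
      have : ((M.updateCol l0 t).updateCol l1 (fun i => M i l)).det = 0 := by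
        apply Matrix.det_zero_of_column_eq (i := l) (j := l1) hl1.1
        intro i
        rw [Matrix.updateCol_self, Matrix.updateCol_ne hl1.1, Matrix.updateCol_ne hl2]
      rw [this, mul_zero]
    · intro h
      exact absurd (Finset.mem_erase.2 ⟨hl, Finset.mem_univ _⟩) h
  -- swap the columns
  have k2 : ((M.updateCol l0 t).updateCol l1 (fun i => M i l0)).det = - (M.updateCol l1 t).det := by
    have s1 := Matrix.det_permute' (Equiv.swap l0 l1) (M.updateCol l1 t)
    rw [Equiv.Perm.sign_swap hl] at s1
    have s2 : (M.updateCol l1 t).submatrix id (Equiv.swap l0 l1) =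
        (M.updateCol l0 t).updateCol l1 (fun i => M i l0) := by
      ext i j
      rw [Matrix.submatrix_apply, id]
      by_cases hj1 : j = l1
      · subst hj1
        rw [Equiv.swap_apply_right, Matrix.updateCol_self, Matrix.updateCol_ne hl]
      · by_cases hj0 : j = l0
        · subst hj0
          rw [Equiv.swap_apply_left, Matrix.updateCol_self, Matrix.updateCol_ne hl,
            Matrix.updateCol_self]
        · rw [Equiv.swap_apply_of_ne_of_ne hj0 hj1, Matrix.updateCol_ne hj1,
            Matrix.updateCol_ne hj1, Matrix.updateCol_ne hj0]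
    rw [← s2, s1]
    push_cast
    ring
  rw [k2] at k1
  field_simp
  linear_combination k1

end Pool.Agent.VF
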