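import Pool.Agent.helper51.VF.SpecA

/-! # Row vf:PSA (MP_74cfa5_ag) -/

set_option autoImplicit false
set_option linter.unusedSectionVars false

namespace Pool.Agent.VF

open Pool.Agent.PC Pool.Agent.QS

universe u

section core

variable {k F K : Type u} [Field k] [Field F] [Field K] [Algebra k F] [Algebra k K] [Algebra F K]
  {n : ℕ} (L : (Ω[F⁄k]) →ₗ[F] (Fin n → K)) (e : K)

/-- the alternating map -/
noncomputable def PSA_alt : (Ω[F⁄k]) [⋀^Fin n]→ₗ[F] K where
  toFun ω := e * Matrix.det (Matrix.of fun i => L (ω i))
  map_update_add' := by
    intro inst ω i x y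
    obtain rfl : inst = instDecidableEqFin n := Subsingleton.elim _ _
    have h : ∀ z, (Matrix.of fun l => L (Function.update ω i z l)) =
        (Matrix.of fun l => L (ω l)).updateRow i (L z) := by
      intro z
      ext l j
      by_cases hl : l = i
      · subst hl
        simp [Matrix.updateRow_self]
      · simp [Matrix.updateRow_ne hl, Function.update_of_ne hl]
    rw [h, h, h, map_add, Matrix.det_updateRow_add, mul_add]
  map_update_smul' := by
    intro inst ω i c x
    obtain rfl : inst = instDecidableEqFin n := Subsingleton.elim _ _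
    have h : ∀ z, (Matrix.of fun l => L (Function.update ω i z l)) =
        (Matrix.of fun l => L (ω l)).updateRow i (L z) := by
      intro z
      ext l j
      by_cases hl : l = i
      · subst hl
        simp [Matrix.updateRow_self]
      · simp [Matrix.updateRow_ne hl, Function.update_of_ne hl]
    have h2 : L (c • x) = algebraMap F K c • L x := by
      rw [map_smul]
      ext j
      rw [Pi.smul_apply, Pi.smul_apply, Algebra.smul_def, smul_eq_mul]
    rw [h, h, h2, Matrix.det_updateRow_smul, Algebra.smul_def]
    ring
  map_eq_zero_of_eq' := by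
    intro ω i j hij hne
    rw [Matrix.det_zero_of_row_eq hne (by ext l; simp [hij]), mul_zero]

end core

theorem PSA : PSA_stmt.{u} := by
  intro k F K _ _ _ _ _ _ _ n T D l0 d
  let L : (Ω[F⁄k]) →ₗ[F] (Fin n → K) := LinearMap.pi fun j =>
    if j = l0 then T.liftKaehlerDifferential else ((D j).compAlgebraMap F).liftKaehlerDifferential
  refine ⟨exteriorPower.alternatingMapLinearEquiv (PSA_alt L d⁻¹), fun f => ?_⟩
  unfold dd JF
  rw [exteriorPower.alternatingMapLinearEquiv_apply_ιMulti]
  change d⁻¹ * Matrix.det (Matrix.of fun i => L (KaehlerDifferential.D k F (f i))) = _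
  congr 2
  ext i j
  simp only [Matrix.of_apply]
  change (if j = l0 then T.liftKaehlerDifferential else
    ((D j).compAlgebraMap F).liftKaehlerDifferential) (KaehlerDifferential.D k F (f i)) = _
  split_ifs with h
  · rw [Derivation.liftKaehlerDifferential_comp_D]
  · rw [Derivation.liftKaehlerDifferential_comp_D]
    rfl

end Pool.Agent.VF
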