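import Pool.Agent.helper51.VF.SpecA

/-! # Row vf:FDR (MP_74cfa5_ag) -/

set_option autoImplicit false

namespace Pool.Agent.VF

open Pool.Agent.PC Pool.Agent.QS

universe u

theorem FDR_adj {F K : Type u} [Field F] [Field K] [Algebra F K] (hp : (Module.finrank F K).Prime)
    (x : K) (hx : ¬ ∃ f : F, algebraMap F K f = x) : Algebra.adjoin F {x} = ⊤ := by
  have := Subalgebra.isSimpleOrder_of_finrank_prime F K hp
  rcases eq_bot_or_eq_top (Algebra.adjoin F {x}) with h | h
  · exfalso
    have h1 : x ∈ Algebra.adjoin F {x} := Algebra.subset_adjoin (Set.mem_singleton x)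
    rw [h, Algebra.mem_bot] at h1
    exact hx h1
  · exact h

theorem FDR_zero {F K : Type u} [Field F] [Field K] [Algebra F K] (hp : (Module.finrank F K).Prime)
    (x : K) (hx : ¬ ∃ f : F, algebraMap F K f = x) (δ δ' : Derivation F K K) (h : δ x = δ' x) :
    δ = δ' := by
  apply Derivation.ext_of_adjoin_eq_top {x} (FDR_adj hp x hx)
  intro y hy
  rw [Set.mem_singleton_iff] at hy
  rw [hy, h]

theorem FDR : FDR_stmt.{u} := by
  intro F K _ _ _ p hp _ hfr hpow
  have hprime : (Module.finrank F K).Prime := by rw [hfr]; exact hp.out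
  have hfd : FiniteDimensional F K := .of_finrank_pos hprime.pos
  -- an element not in `F`
  have hex : ∃ a : K, ¬ ∃ f : F, algebraMap F K f = a := by
    by_contra hcon
    push Not at hcon
    have h1 : (⊥ : Subalgebra F K) = ⊤ := by
      rw [eq_top_iff]
      intro a _
      rw [Algebra.mem_bot]
      exact hcon a
    rw [Subalgebra.bot_eq_top_iff_finrank_eq_one] at h1
    rw [h1] at hprime
    exact Nat.not_prime_one hprime
  obtain ⟨a, ha⟩ := hex
  refine ⟨?_, ?_, ?_⟩
  · by_contra hcon
    push Not at hcon
    have hsub : Subsingleton (Ω[K⁄F]) := by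
      refine subsingleton_of_forall_eq 0 fun ω => ?_
      rw [← Module.forall_dual_apply_eq_zero_iff K ω]
      intro g
      have h1 : g = 0 := by
        apply (KaehlerDifferential.linearMapEquivDerivation F K).injective
        rw [hcon (KaehlerDifferential.linearMapEquivDerivation F K g), map_zero]
      rw [h1]
      rfl
    have hun : Algebra.FormallyUnramified F K := ⟨hsub⟩
    have hsep : Algebra.IsSeparable F K := Algebra.FormallyUnramified.isSeparable F K
    have hch : CharP F p := RingHom.charP (algebraMap F K) (algebraMap F K).injective p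
    have hex : ExpChar F p := ExpChar.prime hp.out
    have hpi : IsPurelyInseparable F K := by
      rw [isPurelyInseparable_iff_pow_mem F p]
      intro x
      obtain ⟨f, hf⟩ := hpow x
      exact ⟨1, f, by rw [pow_one]; exact hf⟩
    exact ha (IsPurelyInseparable.surjective_algebraMap_of_isSeparable F K a)
  · intro δ δ' hδ
    have h0 : δ a ≠ 0 := by
      intro h
      apply hδ
      exact FDR_zero hprime a ha δ 0 (by rw [h]; rfl)
    refine ⟨δ' a / δ a, FDR_zero hprime a ha _ _ ?_⟩
    rw [Derivation.smul_apply, smul_eq_mul, div_mul_cancel₀ _ h0]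
  · intro δ hδ x hx
    by_contra hcon
    exact hδ (FDR_zero hprime x hcon δ 0 (by rw [hx]; rfl))

end Pool.Agent.VF
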